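import Pool.Agent.Helper5.FRB.TwoFinal
import Pool.Agent.Helper55.FR.GoalsB

/-!
# Four odd circuits and 4-circuits: definitions and goals

`n` is a permutation of `V` which runs along the circuits of a 2-factor, the involution `m` is the
complementary perfect matching. A state of the proof is a union `A` of circuits with an involution
`t` without fixed points on `A` (some circuits of length 4 have been removed and the ends of the
matching edges at them have been joined).
-/

set_option autoImplicit false

namespace Pool.Agent.Helper5.FRC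

open Finset

section

variable {V : Type} [DecidableEq V]

/-- `S` is a union of circuits of the 2-factor. -/
def Inv (n : Equiv.Perm V) (S : Finset V) : Prop := ∀ x ∈ S, n x ∈ S

/-- The number of edges `x, t x` leaving `S`. -/
def dm (t : V → V) (S : Finset V) : ℕ := (S.filter fun x => t x ∉ S).card

/-- `t` pairs the vertices of `A`. -/
def Prg (A : Finset V) (t : V → V) : Prop := ∀ x ∈ A, t x ∈ A ∧ t (t x) = x ∧ t x ≠ x

/-- No union of circuits with an odd number of vertices is left by exactly one edge. -/
def Bc (n : Equiv.Perm V) (A : Finset V) (t : V → V) : Prop :=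
  ∀ S ⊆ A, Inv n S → Odd S.card → dm t S ≠ 1

/-- A circuit of the 2-factor. -/
def Cir (n : Equiv.Perm V) (C : Finset V) : Prop :=
  C.Nonempty ∧ Inv n C ∧ ∀ D ⊆ C, D.Nonempty → Inv n D → D = C

/-- What has to be found for a state `A, t`: an involution `P` which pairs consecutive vertices,
except at most four fixed points, and a set `Y`, closed under `t` and `P`, which contains the fixed
points of `P`, and such that every odd union of circuits is left by an edge of `t` outside `Y`. -/
def Sol (n : Equiv.Perm V) (A : Finset V) (t : V → V) : Prop :=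
  ∃ (P : V → V) (Y : Finset V), Y ⊆ A ∧
    (∀ v ∈ A, P v ∈ A ∧ P (P v) = v ∧ (P v = v ∨ P v = n v ∨ n (P v) = v)) ∧
    (∀ v ∈ Y, t v ∈ Y ∧ P v ∈ Y) ∧
    (∀ v ∈ A, P v = v → v ∈ Y ∧ P (n v) ≠ n v) ∧
    (A.filter fun v => P v = v).card ≤ 4 ∧
    ∀ S ⊆ A, Inv n S → Odd S.card → ∃ x ∈ S, x ∉ Y ∧ t x ∉ S

/-- `q` pairs consecutive vertices of `C`, only `p` is a fixed point. -/
def Npr (n : Equiv.Perm V) (C : Finset V) (p : V) (q : V → V) : Prop :=
  ∀ x ∈ C, q x ∈ C ∧ q (q x) = x ∧ (q x = x ∨ q x = n x ∨ n (q x) = x) ∧ (q x = x ↔ x = p)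

end

/-! ### Circuits -/

/-- CIRO. Proof: let `C` be a circuit and `p ∈ C`. The set of all `(n ^ i) p` is contained in `C`,
nonempty and closed under `n`, so it is `C`; with `L = |C|` every `x ∈ C` is `(n ^ i) p` for exactly
one `i < L`, and `(n ^ L) p = p` (minimal period). `L` is odd. Put `q x = x` if `i = 0`, `q x = n x`
if `i` is odd (then `i + 1 < L`) and `q x = n⁻¹ x` if `i > 0` is even. -/
def NprStmt : Prop := ∀ (V : Type) [Fintype V] [DecidableEq V] (n : Equiv.Perm V)
  (C : Finset V), Cir n C → Odd C.card → ∀ p ∈ C, ∃ q : V → V, Npr n C p q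

/-- SHIFT. Proof: `n v ≠ v` on `C` (else `{v} = C`; excluded by `1 < |C|`) and `n (n v) ≠ v` (else
`{v, n v}` is closed under `n`, `|C|` would be even). As `q p = p` and `r = n (n p)`, `s = n p`:
`q s` is `s`, `n s = r` or `n⁻¹ s = p`; not `s` (only `p` is fixed), not `p` (`q p = p ≠ s`); so
`q s = r` and `q r = s`. Let `q' p = s`, `q' s = p`, `q' r = r` and `q' x = q x` for the other `x`. -/
def ShiftStmt : Prop := ∀ (V : Type) [Fintype V] [DecidableEq V] (n : Equiv.Perm V)
  (C : Finset V), Cir n C → Odd C.card → 1 < C.card → ∀ p ∈ C, ∀ q : V → V, Npr n C p q →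
    q (n p) = n (n p) ∧ q (n (n p)) = n p ∧ n p ≠ p ∧ n (n p) ≠ p ∧
    Npr n C (n (n p)) (fun x => if x = p then n p else if x = n p then p
      else if x = n (n p) then n (n p) else q x)

/-- TWIST. On an odd circuit one comes from `x` to `y` by steps of length two: a set `E` of vertices
of `C` which is closed under `x ↦ n (n x)` and nonempty is `C`. Proof: `E ∩ n E` is closed under
`n`: for `x = n y`, `y ∈ E`, `x ∈ E` also `n x = n (n y) ∈ E` and `n x ∈ n E`. So it is `∅` or `C`. If it
is empty then `E ∪ n E` is closed under `n`, so it is `C`, and `|C| = 2 |E|`, a contradiction. -/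
def TwistStmt : Prop := ∀ (V : Type) [Fintype V] [DecidableEq V] (n : Equiv.Perm V)
  (C : Finset V), Cir n C → Odd C.card → ∀ E ⊆ C, E.Nonempty → (∀ x ∈ E, n (n x) ∈ E) → E = C

/-! ### Two involutions -/

/-- PATH. `a`, `b` are involutions of `D` (fixed points allowed) and no smaller nonempty subset of
`D` is closed under both. Then `a` and `b` together have no or two fixed points.
Proof: parity: both numbers of fixed points have the parity of `|D|`, so the sum is even. It is
at most two by induction on `|D|`, for all `a`, `b` (the statement is symmetric in `a`, `b`): let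
`a x = x`. If `b x = x` then `{x}` is closed, so `D = {x}` and the sum is two. Otherwise let
`y = b x`, `D' = D \ {x}`, `a' = a`, `b' = b` with `b' y = y`. `a`, `b'` are involutions of `D'` and
a nonempty set `E ⊆ D'` closed under both is `D'`: if `y ∈ E` then `E ∪ {x}` is closed under `a`, `b`;
if `y ∉ E` then `E` is closed under `a`, `b` and `E = D` contains `x`, a contradiction.
On `D'` there is one fixed point of `a` less and one of `b'` more. -/
def PathStmt : Prop := ∀ (V : Type) [Fintype V] [DecidableEq V] (D : Finset V) (a b : V → V),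
  (∀ x ∈ D, a x ∈ D ∧ a (a x) = x) → (∀ x ∈ D, b x ∈ D ∧ b (b x) = x) →
  (∀ E ⊆ D, E.Nonempty → (∀ x ∈ E, a x ∈ E ∧ b x ∈ E) → E = D) →
    (D.filter fun x => a x = x).card + (D.filter fun x => b x = x).card = 0 ∨
    (D.filter fun x => a x = x).card + (D.filter fun x => b x = x).card = 2

/-- SLIDE. `C` is an odd circuit, `b` an involution of `C`, and for each of the three colours the
number of fixed points of `b` with this colour is odd. Then for some `p ∈ C` and the pairing `q` of
`C \ {p}` there is a set `Y`, closed under `q` and `b`, which contains `p` and exactly one fixed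
point of `b` of each colour.
Proof (may assume NPR, SHIFT, TWIST, PATH): Let `K` be the set of the fixed points of `b`. If `Y` is
closed under `q`, `b` then so is `C \ Y`, and every `x` is in a smallest closed set `D(x)` (the
intersection of all), and two minimal closed sets are equal or disjoint. By PATH `D(p)` contains
exactly one point of `K`, its colour is `h(p)` (for some pairing `q` with fixed point `p`; `q` is
in fact unique: say `Col q p c` if the smallest closed set containing `p` has a point of `K` of
colour `c`), and every other minimal closed set contains none or two points of `K`.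
Suppose that the claim fails for `p, q`. Let `c = h(p)` and let `e` be a colour not `c`. The number
of points of `K` of colour `e` is odd, none of them is in `D(p)`, so some of them is in a minimal
closed set whose other point of `K` has another colour, which is not the third colour (then
`Y = D(p) ∪` this set works), so it is `c`. (*)
For `p ∈ K` we have `D(p) = {p}`, so `h(p)` is the colour of `p`. So `h` is not constant
and by TWIST there is `p` with `c = h(p) ≠ a = h(r)`, `r = n (n p)`, `s = n p`, where the pairing
for `r` is the shifted one `q'`: it exchanges `p` and `s`, fixes `r`, and `q` exchanges `s` and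
`r`. Let `e` be the third colour. By (*) there is a minimal closed set `D` for `q`, `p ∉ D`, with
one point of `K` of colour `e` and one of colour `c`. If `s ∉ D` then `r = q s ∉ D` and `D` is
closed under `q'`, and `Y = D ∪ D'(r)` works for `r`, `q'` (`D'(r)` is the smallest set closed under
`q'`, `b` containing `r`; it is disjoint from `D` because `C \ D` is closed and contains `r`; its
point of `K` has colour `a`). If `s ∈ D` then `r = q s ∈ D` and `D ∪ D(p)` contains `p`, `s`, `r`, is
closed under `q'`, `b`, so it contains `D'(r)`; but its points of `K` have colours `e` and `c`,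
a contradiction to `h(r) = a`. -/
def SlideStmt : Prop := ∀ (V : Type) [Fintype V] [DecidableEq V] (n : Equiv.Perm V)
  (C : Finset V), Cir n C → Odd C.card → ∀ (b : V → V) (col : V → Fin 3),
    (∀ x ∈ C, b x ∈ C ∧ b (b x) = x) →
    (∀ i, Odd (C.filter fun x => b x = x ∧ col x = i).card) →
    ∃ p ∈ C, ∃ (q : V → V) (Y : Finset V), Y ⊆ C ∧ Npr n C p q ∧ p ∈ Y ∧
      (∀ x ∈ Y, q x ∈ Y ∧ b x ∈ Y) ∧ ∀ i, (Y.filter fun x => b x = x ∧ col x = i).card = 1

/-! ### Removing a 4-circuit -/

/-- SUBM. Cut functions are submodular (all sets inside `A`, `t` an involution on `A`), crossing and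
complementary form. Proof: count for every `x ∈ A` its contribution; the edges `x, t x` can be
grouped by the four cells `S ∩ T`, `S \ T`, `T \ S`, `A \ (S ∪ T)`; for instance compare both sides of
`2 dm t S = #{x ∈ A | (x ∈ S) ≠ (t x ∈ S)}` point by point. -/
def SubmStmt : Prop := ∀ (V : Type) [Fintype V] [DecidableEq V] (A S T : Finset V) (t : V → V),
  Prg A t → S ⊆ A → T ⊆ A → dm t (S ∩ T) + dm t (S ∪ T) ≤ dm t S + dm t T ∧
    dm t (A \ S) = dm t S ∧ (dm t S % 2 = S.card % 2)

/-- LIFT. Let `Z ⊆ A` have four elements, `p` an involution without fixed points of `Z`, and let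
`t'` be the pairing of `A \ Z` which one gets from `t` and `p`: `t' x = t x` if `t x ∉ Z`, otherwise
with `y = t (p (t x))`: `t' x = y` if `y ∉ Z`, else `t' x = t (p y)`. Then `t'` is a pairing of `A \ Z`
and for every `K ⊆ A \ Z` there is `W ⊆ Z`, closed under `p`, such that
`dm t (K ∪ W) = dm t' K`.
Proof: `Z` consists of two pairs `{z, p z}`. (1) If `t` maps `z` to `p z`: `W` does not matter for this
pair; (2) if `t` maps a point of one pair to a point of the other pair: if the other two points are
mapped to each other too, then `W = ∅`; else the two other points have `t`-images `x`, `x'` outside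
`Z` with `t' x = x'`, take `W = Z` if `x ∈ K`, else `W = ∅`. (3) Otherwise every pair is passed by
its own chain `x, z, p z, x' = t' x` or is as in (1): put the pair into `W` if `x ∈ K`. -/
def LiftStmt : Prop := ∀ (V : Type) [Fintype V] [DecidableEq V] (A Z : Finset V) (t p : V → V),
  Prg A t → Z ⊆ A → Z.card = 4 → Prg Z p →
    ∃ t' : V → V, Prg (A \ Z) t' ∧
      (∀ x ∈ A \ Z, (t x ∉ Z ∧ t' x = t x) ∨ (t x ∈ Z ∧ t (p (t x)) ∉ Z ∧ t' x = t (p (t x))) ∨
        (t x ∈ Z ∧ t (p (t x)) ∈ Z ∧ t' x = t (p (t (p (t x)))))) ∧
      ∀ K ⊆ A \ Z, ∃ W ⊆ Z, (∀ z ∈ W, p z ∈ W) ∧ dm t (K ∪ W) = dm t' K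

/-- DIS. One of the two pairings of a circuit `Z` of length 4 keeps the condition `Bc`.
Proof (may assume SUBM, LIFT): let `Z = {a, b, c, d}`, `b = n a`, `c = n b`, `d = n c`, `a = n d`. Let
`p` exchange `a, b` and `c, d`, and let `p'` exchange `b, c` and `d, a`, with pairings `t₁`, `t₂` of
`A \ Z`. Suppose that `K`, `K' ⊆ A \ Z` are odd, closed under `n`, `dm t₁ K = 1`, `dm t₂ K' = 1`. LIFT
gives `W`, `W'` with `dm t (K ∪ W) = 1`, `dm t (K' ∪ W') = 1`. If `W = ∅` or `W = Z` then `K ∪ W` is
closed under `n` and odd, a contradiction to `Bc`; so `W` is `{a, b}` or `{c, d}`, and `W'` is `{b, c}`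
or `{d, a}`. We may replace `K` by `(A \ Z) \ K` and `W` by `Z \ W` (then `K ∪ W` is replaced by the
complement, SUBM; `|A|` is even) and the same for `K'`, `W'`. If `|K ∩ K'|` is odd then
`(A \ Z) \ (K ∪ K')` is odd (count: `|A \ Z|` is even, `|K|`, `|K'|` are odd); if `|K ∩ K'|` is even,
replace `K'`, `W'` by their complements. So let `X = K ∩ K'` and `X' = (A \ Z) \ (K ∪ K')` be odd.
`W ∩ W' = {z}` and `Z \ (W ∪ W') = {z'}` are single points, and by SUBM
`dm t (X ∪ {z}) + dm t (X' ∪ {z'}) ≤ 2`. Leaving out one point changes `dm t` by at most one, so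
`dm t X + dm t X' ≤ 4`. But both are odd and by `Bc` not 1, so at least 3, a contradiction. -/
def DisStmt : Prop := ∀ (V : Type) [Fintype V] [DecidableEq V] (n : Equiv.Perm V)
  (A Z : Finset V) (t : V → V), Inv n A → Prg A t → Bc n A t → Z ⊆ A → Cir n Z → Z.card = 4 →
    ∃ p t' : V → V, Prg Z p ∧ (∀ z ∈ Z, p z = n z ∨ n (p z) = z) ∧ Prg (A \ Z) t' ∧
      (∀ x ∈ A \ Z, (t x ∉ Z ∧ t' x = t x) ∨ (t x ∈ Z ∧ t (p (t x)) ∉ Z ∧ t' x = t (p (t x))) ∨
        (t x ∈ Z ∧ t (p (t x)) ∈ Z ∧ t' x = t (p (t (p (t x)))))) ∧
      Bc n (A \ Z) t'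

/-- EXTY. The solution of the smaller state gives one of the larger.
Proof: let `P'`, `Y'` be the solution for `A \ Z`, `t'`. `P = p` on `Z`, `P = P'` elsewhere. `Y` is `Y'`
together with the points of `Z` on the chains of the points of `Y'`: for `x ∈ Y'` with `y = t x ∈ Z`
the points `y`, `p y`, and if `y₁ = t (p y) ∈ Z` also `y₁`, `p y₁` (in this case these are all points of
`Z`, and `t (p y₁) = t' x` is not in `Z`). `Y` is closed under `t` and `P`. Let `S ⊆ A` be odd and
closed under `n`. As `Z` is a circuit, `S ∩ Z` is `∅` or `Z`, so `S \ Z` is odd and closed under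
`n`, there is `x ∈ S \ Z` not in `Y'` with `t' x ∉ S \ Z`, and so `t' x ∉ S`. Suppose that `t y ∈ S`
for all `y ∈ S` outside `Y`. Then the whole chain `x, t x, p (t x), ...` is in `S` (a point of `Z`
in `S` gives `Z ⊆ S`) and outside `Y` (closed under `t`, `P`), so `t' x ∈ S`, a contradiction. -/
def ExtyStmt : Prop := ∀ (V : Type) [Fintype V] [DecidableEq V] (n : Equiv.Perm V)
  (A Z : Finset V) (t p t' : V → V), Inv n A → Prg A t → Z ⊆ A → Cir n Z → Z.card = 4 →
    Prg Z p → (∀ z ∈ Z, p z = n z ∨ n (p z) = z) → Prg (A \ Z) t' →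
    (∀ x ∈ A \ Z, (t x ∉ Z ∧ t' x = t x) ∨ (t x ∈ Z ∧ t (p (t x)) ∉ Z ∧ t' x = t (p (t x))) ∨
      (t x ∈ Z ∧ t (p (t x)) ∈ Z ∧ t' x = t (p (t (p (t x)))))) →
    Sol n (A \ Z) t' → Sol n A t

/-! ### At most four odd circuits -/

/-- TWO. Two circuits. Proof (may assume NPR): `|A|` is even and `dm t (C 0)` is odd, so some
`x ∈ C 0` has `t x ∈ C 1`. `Bc` gives `dm t (C i) ≥ 3`. `P` is on `C 0` the pairing with fixed point
`x`, on `C 1` the one with fixed point `t x`, `Y = {x, t x}`. A closed set `S` with `|S|` odd is
`C 0` or `C 1` (`S ∩ C i` is `∅` or `C i`) and has at least three edges leaving it, at most one of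
them has an end in `S ∩ Y`. For the clause on `P (n v)`: `n v` is in the same circuit as `v`, `n v ≠ v`
by the hypothesis, and `v` is the only fixed point in its circuit. -/
def TwoStmt : Prop := ∀ (V : Type) [Fintype V] [DecidableEq V] (n : Equiv.Perm V)
  (A : Finset V) (t : V → V) (C : Fin 2 → Finset V), (∀ v, n v ≠ v) → Prg A t → Bc n A t →
    (∀ i, Cir n (C i)) → (∀ i, Odd (C i).card) → (∀ i j, i ≠ j → Disjoint (C i) (C j)) →
    A = univ.biUnion C → Sol n A t

/-- PAIR. Four circuits with two disjoint strands. Proof (may assume NPR): the fixed points of `P`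
are `x, t x, y, t y`, these form `Y`. A closed set `S` with `|S|` odd is one `C i` or
the union of three, i.e. `A \ C i`; as `dm t (C i)` is odd and not 1 there is an edge between `C i`
and `A \ C i` whose ends are not in `Y` (the only ends in `C i ∩ Y` is one point). -/
def PairStmt : Prop := ∀ (V : Type) [Fintype V] [DecidableEq V] (n : Equiv.Perm V)
  (A : Finset V) (t : V → V) (C : Fin 4 → Finset V), (∀ v, n v ≠ v) → Prg A t → Bc n A t →
    (∀ i, Cir n (C i)) → (∀ i, Odd (C i).card) → (∀ i j, i ≠ j → Disjoint (C i) (C j)) →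
    A = univ.biUnion C → ∀ x ∈ C 0, t x ∈ C 1 → ∀ y ∈ C 2, t y ∈ C 3 → Sol n A t

/-- STAR. Four circuits, all edges between different circuits have an end in `C 3`. Proof (may assume
NPR, SLIDE): for `i < 3` the number of edges between `C i` and `C 3` is `dm t (C i)`, odd, at least 3.
Use SLIDE for `C 3`, `b x = t x` if `t x ∈ C 3`, otherwise `b x = x`, with the colour of `x` (if
`t x ∉ C 3`) the `i < 3` with `t x ∈ C i`. It gives `p`, `q` and `Y₃`; let `y i` be the point of `Y₃` with
`t (y i) ∈ C i`. `P` is `q` on `C 3` and on `C i` the pairing with fixed point `t (y i)`;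
`Y = Y₃ ∪ {t (y 0), t (y 1), t (y 2)}`. It is closed under `t` and `P`. `C i` has one of at least
three leaving edges in `Y`. `C 3` has three of at least nine leaving edges in `Y`. As in PAIR. -/
def StarStmt : Prop := ∀ (V : Type) [Fintype V] [DecidableEq V] (n : Equiv.Perm V)
  (A : Finset V) (t : V → V) (C : Fin 4 → Finset V), (∀ v, n v ≠ v) → Prg A t → Bc n A t →
    (∀ i, Cir n (C i)) → (∀ i, Odd (C i).card) → (∀ i j, i ≠ j → Disjoint (C i) (C j)) →
    A = univ.biUnion C → (∀ i ≠ 3, ∀ x ∈ C i, t x ∈ C i ∨ t x ∈ C 3) → Sol n A t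

/-- FOUR. Four circuits. Proof (may assume PAIR, STAR): let `E i j` say that some `x ∈ C i` has
`t x ∈ C j`; this is symmetric and every `i` has `E i j` for some `j ≠ i` (`dm t (C i)` is odd). If
`E 0 1` and `E 2 3`, or `E 0 2` and `E 1 3`, or `E 0 3` and `E 1 2`: PAIR (for `C ∘ e`, `e` a
permutation of `Fin 4`). Otherwise there is a centre `c` such that `E i j`, `i ≠ j`, holds only if
`i = c` or `j = c` (a graph on four vertices without isolated vertices and without a perfect
matching is a star): STAR for `C ∘ e` with `e 3 = c`. -/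
def FourStmt : Prop := ∀ (V : Type) [Fintype V] [DecidableEq V] (n : Equiv.Perm V)
  (A : Finset V) (t : V → V) (C : Fin 4 → Finset V), (∀ v, n v ≠ v) → Prg A t → Bc n A t →
    (∀ i, Cir n (C i)) → (∀ i, Odd (C i).card) → (∀ i j, i ≠ j → Disjoint (C i) (C j)) →
    A = univ.biUnion C → Sol n A t

/-- IND. Proof (may assume DIS, EXTY, TWO, FOUR): strong induction on `|A|`. If some circuit
`Z ⊆ A` is even, it has 4 elements; DIS gives `p`, `t'`, and the hypotheses hold for `A \ Z`, `t'`;
EXTY. Otherwise all circuits in `A` are odd. `A` is the disjoint union of the circuits contained in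
it (every point is in a circuit, two different circuits are disjoint: the intersection is closed
under `n`). Their number `k` is at most 4 and even because `|A|` is even (`t` has no fixed points).
`k = 0`: `A = ∅`, `P = id`, `Y = ∅` (no `S ⊆ ∅` is odd). `k = 2`: TWO. `k = 4`: FOUR. -/
def IndStmt : Prop := ∀ (V : Type) [Fintype V] [DecidableEq V] (n : Equiv.Perm V)
  (A : Finset V) (t : V → V), (∀ v, n v ≠ v) → Inv n A → Prg A t → Bc n A t →
    (∀ C ⊆ A, Cir n C → Even C.card → C.card = 4) →
    (∀ F : Finset (Finset V), (∀ C ∈ F, C ⊆ A ∧ Cir n C ∧ Odd C.card) → F.card ≤ 4) →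
    Sol n A t

/-! ### Graphs -/

open Pool.Agent.Helper55.FR in
/-- ENDF. Proof: let `P`, `Y` be the solution. Let `q v = m v` for `v ∈ Y`, `q v = P v` for `v ∉ Y`.
`q` is an involution without fixed points along edges of `G`; `M₂` is its matching. If a set `K` of an
odd number of vertices had all leaving edges in `M` and in `M₂`, then `K` would be closed under `n`
(edges `x, n x` are not in `M`), so there is `x ∈ K` not in `Y` with `m x ∉ K`; the edge `x, m x` leaves `K`
and is not in `M₂` because `q x = P x` is `n x` or `n⁻¹ x`, not `m x`. So for odd `K` with all leaving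
edges in `M`, there is a leaving edge not in `M₂`, and by parity (`two_le_cut` in
`Helper5.FRB.Cuts`) there are at least two; the same with `M` and `M₂` exchanged. The graph
`G - (M ∪ M₂)` has at most four odd components: let
`r v = n v` if `P v = v`; `r v = n⁻¹ v` if `P v = n v`; and if `P v = n⁻¹ v`: `r v = v` if `P (n v) = n v`,
else `r v = n v`. `r` is an involution (check the cases; `n (n v) ≠ v`, no two fixed points of
`P` are consecutive), `r v = v` only for `v = n⁻¹ u`, `u` a fixed point of `P`, so at most four times,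
and if `r v ≠ v` then `v, r v` is an edge of `G` neither in `M` nor in `M₂`, so `r` preserves the
components; an odd one contains a fixed point of `r`. Now `FRB.two_matchings` with `d₁ = d₂ = 2`: if
there is no `M₃` then `4 ≤ 2 |A|` and `2 + 2 |A| ≤` number of odd components `≤ 4`, a contradiction. -/
def EndfStmt : Prop := ∀ (V : Type) [Fintype V] [DecidableEq V] (G : SimpleGraph V)
  [DecidableRel G.Adj], G.IsRegularOfDegree 3 → ∀ M : G.Subgraph, M.IsPerfectMatching →
    ∀ (n : Equiv.Perm V) (m : V → V), Cub n m → (∀ x y, G.Adj x y ↔ adj n m x y) →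
      (∀ x y, M.Adj x y ↔ y = m x) → Sol n univ m →
      ∃ N₁ N₂ : G.Subgraph, N₁.IsPerfectMatching ∧ N₂.IsPerfectMatching ∧
        ∀ e : Sym2 V, ¬ (e ∈ M.edgeSet ∧ e ∈ N₁.edgeSet ∧ e ∈ N₂.edgeSet)

open Pool.Agent.Helper55.FR in
/-- BRG. In a bridgeless graph the starting state satisfies `Bc`. Proof: let `S` be closed under `n`
with exactly one `x ∈ S` such that `m x ∉ S`. Then `s(x, m x)` is the only edge of `G` between `S` and
its complement (`S` and its complement are closed under `n` and `n⁻¹`), so it is a bridge
(`SimpleGraph.isBridge_iff`: a walk from `x` to `m x` without this edge would have to leave `S`). -/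
def BrgStmt : Prop := ∀ (V : Type) [Fintype V] [DecidableEq V] (G : SimpleGraph V)
  [DecidableRel G.Adj], (∀ e : Sym2 V, ¬ G.IsBridge e) → ∀ (n : Equiv.Perm V) (m : V → V),
    Cub n m → (∀ x y, G.Adj x y ↔ adj n m x y) → Bc n univ m

open Pool.Agent.Helper55.FR in
/-- CMP. The circuits are the connected components of `G - M`. Proof: two vertices `x`, `y` are adjacent
in `G.deleteEdges M.edgeSet` iff `y = n x` or `x = n y`; so the support of a component is closed
under `n` and minimal, and a circuit `C` (which is closed under `n⁻¹` too) is the support of the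
component of any of its points. -/
def CmpStmt : Prop := ∀ (V : Type) [Fintype V] [DecidableEq V] (G : SimpleGraph V)
  [DecidableRel G.Adj] (M : G.Subgraph) (n : Equiv.Perm V) (m : V → V), Cub n m →
    (∀ x y, G.Adj x y ↔ adj n m x y) → (∀ x y, M.Adj x y ↔ y = m x) → ∀ C : Finset V, Cir n C →
      ∃ D : (G.deleteEdges M.edgeSet).ConnectedComponent, D.supp = (C : Set V)

end Pool.Agent.Helper5.FRC
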