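import Pool.Agent.Helper5.FRC.Defs

/-!
# Four odd circuits and even circuits of bounded total length: goals

The generalisation of `Defs`: even circuits of any length are removed, at a cost for the size of the
odd cuts in the matching which depends on the length.
-/

set_option autoImplicit false

namespace Pool.Agent.Helper5.FRC

open Finset

/-- Every odd union of circuits is left by at least `l` edges. -/
def Bl {V : Type} [DecidableEq V] (n : Equiv.Perm V) (A : Finset V) (t : V → V) (l : ℕ) : Prop :=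
  ∀ S ⊆ A, Inv n S → Odd S.card → l ≤ dm t S

/-- CLOSE. A set `Z` with an involution `p` without fixed points is removed, the ends are joined.
Proof: induction on `|Z|`. `Z = ∅`: `t' = t`, `W = ∅`. Otherwise let `z ∈ Z`, `w = p z`. First remove
the pair: on `A₁ = A \ {z, w}` let `t₁ x = t w` if `t x = z`, `t₁ x = t z` if `t x = w`, and
`t₁ x = t x` otherwise. It is a pairing of `A₁`. For `K ⊆ A₁` put `W₁ = {z, w}` if `t z ∈ K`, else
`W₁ = ∅`; then `dm t (K ∪ W₁) = dm t₁ K` (if `t z = w` nothing happens; otherwise let `x = t z`,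
`y = t w ∈ A₁`, so `t₁` exchanges `x`, `y`; if `x ∈ K` then among `x`, `z`, `w` (and `y`, if it is in `K`)
exactly `w` leaves `K ∪ W₁`, iff `y ∉ K`; if `x ∉ K` then `y`, if it is in `K`, leaves in both cases).
If `U` is closed under `t` and `p` then `U \ {z, w}` is closed under `t₁`. Then use the induction
hypothesis for `A₁`, `Z \ {z, w}`, `t₁`. -/
def CloseStmt : Prop := ∀ (V : Type) [Fintype V] [DecidableEq V] (A Z : Finset V) (t p : V → V),
  Prg A t → Z ⊆ A → Prg Z p →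
    ∃ t' : V → V, Prg (A \ Z) t' ∧
      (∀ K ⊆ A \ Z, ∃ W ⊆ Z, (∀ z ∈ W, p z ∈ W) ∧ dm t (K ∪ W) = dm t' K) ∧
      (∀ U ⊆ A, (∀ x ∈ U, t x ∈ U) → (∀ x ∈ U, x ∈ Z → p x ∈ U) → ∀ x ∈ U \ Z, t' x ∈ U \ Z)

/-- EVENP. The two pairings of consecutive vertices of an even circuit. Proof: let `c ∈ C`; every
`x ∈ C` is `(n ^ i) c` for exactly one `i < |C|` (see lemma `enum` in `Helper9.FRC.NPR`), and
`(n ^ |C|) c = c`. `p x = n x` for even `i`, `p x = n⁻¹ x` for odd `i`; `p' x = n⁻¹ x` for even `i`,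
`p' x = n x` for odd `i`. -/
def EvenpStmt : Prop := ∀ (V : Type) [Fintype V] [DecidableEq V] (n : Equiv.Perm V)
  (C : Finset V), Cir n C → Even C.card →
    ∃ p p' : V → V, Prg C p ∧ Prg C p' ∧ ∀ z ∈ C, (p z = n z ∨ n (p z) = z) ∧
      (p' z = n z ∨ n (p' z) = z) ∧ (n z = p z ∨ n z = p' z)

/-- DISG. One of the two pairings of an even circuit `Z` works.
Proof (may assume SUBM, CLOSE, EVENP; see `Helper26.FRC.DIS` for the case `|Z| = 4`): let
`p`, `p'` be the pairings and `t₁`, `t₂` the new pairings of `A \ Z`. Suppose that `Bl` with `l` fails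
for both: `K, K' ⊆ A \ Z` are odd, closed under `n`, `dm t₁ K < l`, `dm t₂ K' < l`. These numbers are odd
(SUBM for `t₁`, `t₂` on `A \ Z`), and `l` is odd, so they are at most `l - 2`. CLOSE gives `W`, `W' ⊆ Z`
closed under `p`, `p'` with `dm t (K ∪ W) = dm t₁ K`, `dm t (K' ∪ W') = dm t₂ K'`. `W`, `W'` are even
(pairings). If `W = ∅` or `W = Z` then `K ∪ W` is closed under `n` and odd, a contradiction to
`Bl`. `W ≠ W'` and `W ≠ Z \ W'`: otherwise `W` is closed under `p` and `p'`, so under `n`, so it is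
`∅` or `Z` (`Z` is a circuit). We may replace `K', W'` by `(A \ Z) \ K'`, `Z \ W'` (complement of
`K' ∪ W'` in `A`, SUBM; `|A \ Z|` is even, and `t₂` maps `A \ Z` to itself), so we may assume that
`X = K ∩ K'` is odd; then `X' = (A \ Z) \ (K ∪ K')` is odd too. Let `U = W ∩ W'`,
`U' = Z \ (W ∪ W')`. By submodularity
`dm t (X ∪ U) + dm t (X' ∪ U') ≤ dm t (K ∪ W) + dm t (K' ∪ W') ≤ 2 l - 4`. Also
`dm t X ≤ dm t (X ∪ U) + |U|` (an edge leaving `X` leaves `X ∪ U` or ends in `U`), the same for `X'`.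
`|U| + |U'| = |Z| - |W \ W'| - |W' \ W| ≤ |Z| - 2` because `|W \ W'| + |W' \ W|` is even and not 0.
So with `|Z| = 2 k`: `2 (l + 2 ((2 k - 2) / 4)) ≤ dm t X + dm t X' ≤ 2 l + 2 k - 6`, but
`4 ((2 k - 2) / 4) ≥ 2 k - 4`, a contradiction. -/
def DisgStmt : Prop := ∀ (V : Type) [Fintype V] [DecidableEq V] (n : Equiv.Perm V)
  (A Z : Finset V) (t : V → V) (l : ℕ), Inv n A → Prg A t → Odd l →
    Bl n A t (l + 2 * ((Z.card - 2) / 4)) → Z ⊆ A → Cir n Z → Even Z.card →
    ∃ p t' : V → V, Prg Z p ∧ (∀ z ∈ Z, p z = n z ∨ n (p z) = z) ∧ Prg (A \ Z) t' ∧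
      (∀ K ⊆ A \ Z, ∃ W ⊆ Z, (∀ z ∈ W, p z ∈ W) ∧ dm t (K ∪ W) = dm t' K) ∧
      (∀ U ⊆ A, (∀ x ∈ U, t x ∈ U) → (∀ x ∈ U, x ∈ Z → p x ∈ U) →
        ∀ x ∈ U \ Z, t' x ∈ U \ Z) ∧
      Bl n (A \ Z) t' l

/-- EXTG. The solution of the smaller state gives one of the larger.
Proof: let `P'`, `Y'` be the solution for `A \ Z`, `t'`. `P = p` on `Z`, `P = P'` elsewhere. As `Y'` is
closed under `t'`, `dm t' Y' = 0`, so there is `W ⊆ Z` closed under `p` with `dm t (Y' ∪ W) = 0`. Let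
`Y = Y' ∪ W`, it is closed under `t` and `P`. Let `S ⊆ A` be odd and closed under `n`. As `Z` is a
circuit, `S ∩ Z` is `∅` or `Z`, `|Z|` is even, so `S \ Z` is odd and closed under `n`, and there is
`x ∈ S \ Z` not in `Y'` with `t' x ∉ S \ Z`. Suppose that `t y ∈ S` for all `y ∈ S` outside `Y`.
Then `U = S \ Y` is closed under `t`, and under `p` on `Z` (`p z` is `n z` or `n⁻¹ z`, so it is in
`S`; `Y` is closed under `p`), so `U \ Z` is closed under `t'`, a contradiction for `x`. -/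
def ExtgStmt : Prop := ∀ (V : Type) [Fintype V] [DecidableEq V] (n : Equiv.Perm V)
  (A Z : Finset V) (t p t' : V → V), Inv n A → Prg A t → Z ⊆ A → Cir n Z → Even Z.card →
    Prg Z p → (∀ z ∈ Z, p z = n z ∨ n (p z) = z) → Prg (A \ Z) t' →
    (∀ K ⊆ A \ Z, ∃ W ⊆ Z, (∀ z ∈ W, p z ∈ W) ∧ dm t (K ∪ W) = dm t' K) →
    (∀ U ⊆ A, (∀ x ∈ U, t x ∈ U) → (∀ x ∈ U, x ∈ Z → p x ∈ U) → ∀ x ∈ U \ Z, t' x ∈ U \ Z) →
    Sol n (A \ Z) t' → Sol n A t

open Classical in
/-- INDG. Proof (may assume DISG, EXTG, TWO, FOUR; see `Helper98.FRC.IND` for the case of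
4-circuits): strong induction on `|A|`. If some circuit `Z ⊆ A` is even, then the even circuits in
`A \ Z` are those in `A` except `Z`, so the sum goes down by `(|Z| - 2) / 4`; DISG with
`l = 3 + 2 * (the sum for A \ Z)` and EXTG. Otherwise as in `Helper98.FRC.IND` (`Bl` with `3 ≤ l` implies
`Bc`). -/
def IndgStmt : Prop := ∀ (V : Type) [Fintype V] [DecidableEq V] (n : Equiv.Perm V)
  (A : Finset V) (t : V → V), (∀ v, n v ≠ v) → Inv n A → Prg A t →
    Bl n A t (3 + 2 * ∑ C ∈ A.powerset.filter (fun C => Cir n C ∧ Even C.card),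
      (C.card - 2) / 4) →
    (∀ F : Finset (Finset V), (∀ C ∈ F, C ⊆ A ∧ Cir n C ∧ Odd C.card) → F.card ≤ 4) →
    Sol n A t

end Pool.Agent.Helper5.FRC
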