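import Pool.Agent.Helper5.FRC.Defs

/-!
# Four odd circuits and 4-circuits: assembly
-/

set_option autoImplicit false

namespace Pool.Agent.Helper5.FRC

open Finset
open Pool.Agent.Helper55.FR (Cub adj OriStmt)

/-- The final statement. -/
def MainStmt : Prop := ∀ (V : Type) [Fintype V] [DecidableEq V] (G : SimpleGraph V)
  [DecidableRel G.Adj], G.IsRegularOfDegree 3 → (∀ e : Sym2 V, ¬ G.IsBridge e) →
    ∀ M : G.Subgraph, M.IsPerfectMatching →
      {C : (G.deleteEdges M.edgeSet).ConnectedComponent | Odd C.supp.ncard}.ncard ≤ 4 →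
      (∀ C : (G.deleteEdges M.edgeSet).ConnectedComponent, Even C.supp.ncard →
        C.supp.ncard = 4) →
      ∃ N₁ N₂ : G.Subgraph, N₁.IsPerfectMatching ∧ N₂.IsPerfectMatching ∧
        ∀ e : Sym2 V, ¬ (e ∈ M.edgeSet ∧ e ∈ N₁.edgeSet ∧ e ∈ N₂.edgeSet)

theorem main (hori : OriStmt) (hbrg : BrgStmt) (hcmp : CmpStmt) (hind : IndStmt)
    (hend : EndfStmt) : MainStmt := by
  classical
  intro V _ _ G _ hreg hbr M hM h4 heven
  obtain ⟨n, m, hC, hadj, hMm⟩ := hori V G hreg M hM
  refine hend V G hreg M hM n m hC hadj hMm ?_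
  refine hind V n univ m hC.nv (fun x _ => mem_univ _)
    (fun x _ => ⟨mem_univ _, hC.mm x, hC.mv x⟩) (hbrg V G hbr n m hC hadj) ?_ ?_
  · intro C _ hCir hev
    obtain ⟨D, hD⟩ := hcmp V G M n m hC hadj hMm C hCir
    have h1 : D.supp.ncard = C.card := by rw [hD, Set.ncard_coe_finset]
    rw [← h1] at hev ⊢
    exact heven D hev
  · intro F hF
    have hex : ∀ C ∈ F, ∃ D : (G.deleteEdges M.edgeSet).ConnectedComponent,
        D.supp = (C : Set V) := fun C hC' => hcmp V G M n m hC hadj hMm C (hF C hC').2.1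
    rcases F.eq_empty_or_nonempty with rfl | ⟨C₀, hC₀⟩
    · simp
    haveI : Nonempty (G.deleteEdges M.edgeSet).ConnectedComponent := ⟨(hex C₀ hC₀).choose⟩
    choose! f hf using hex
    have hinj : Set.InjOn f F := by
      intro C hC' C' hC'' h
      have h1 := hf C hC'
      have h2 := hf C' hC''
      rw [h] at h1
      exact_mod_cast h1.symm.trans h2
    have h5 : F.card ≤ {C : (G.deleteEdges M.edgeSet).ConnectedComponent |
        Odd C.supp.ncard}.ncard := by
      rw [← Set.ncard_coe_finset, ← Set.ncard_image_of_injOn hinj]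
      apply Set.ncard_le_ncard _ (Set.toFinite _)
      rintro _ ⟨C, hC', rfl⟩
      show Odd (f C).supp.ncard
      rw [hf C hC', Set.ncard_coe_finset]
      exact (hF C hC').2.2
    exact h5.trans h4

end Pool.Agent.Helper5.FRC
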